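import Mathlib

/-!
# A redundant sentence of an algebraic theory that is false in the generic model

The theory `T` is the empty theory over the empty signature (its models are the objects of a
topos), the sentence is `∀ x y, x = y ∨ ¬ x = y`.
-/

namespace Pool.Agent.Results.MP_c38b8d_lc.DecEqRedundant

/-- Infinitary first-order formulas over the empty signature with equality, with free variables
from `X`: equations between variables, truth, conjunction, disjunctions indexed by small sets,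
implication and quantifiers (the bound variable is `none`). -/
inductive Fm : Type → Type 1
  | eq {X : Type} (x y : X) : Fm X
  | top {X : Type} : Fm X
  | and {X : Type} (φ ψ : Fm X) : Fm X
  | disj {X : Type} (ι : Type) (φ : ι → Fm X) : Fm X
  | imp {X : Type} (φ ψ : Fm X) : Fm X
  | all {X : Type} (φ : Fm (Option X)) : Fm X
  | ex {X : Type} (φ : Fm (Option X)) : Fm X

namespace Fm

/-- Falsity: the empty disjunction. -/
def bot {X : Type} : Fm X := .disj Empty fun e => e.elim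

/-- Negation. -/
def neg {X : Type} (φ : Fm X) : Fm X := .imp φ bot

/-- Binary disjunction. -/
def or {X : Type} (φ ψ : Fm X) : Fm X := .disj Bool fun b => bif b then φ else ψ

/-- Renaming of the free variables (over the empty signature all terms are variables, so this is
also substitution). -/
def map : {X Y : Type} → (X → Y) → Fm X → Fm Y
  | _, _, f, .eq x y => .eq (f x) (f y)
  | _, _, _, .top => .top
  | _, _, f, .and φ ψ => .and (φ.map f) (ψ.map f)
  | _, _, f, .disj ι φ => .disj ι fun i => (φ i).map f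
  | _, _, f, .imp φ ψ => .imp (φ.map f) (ψ.map f)
  | _, _, f, .all φ => .all (φ.map (Option.map f))
  | _, _, f, .ex φ => .ex (φ.map (Option.map f))

/-- Instantiation of the variable `none` by `x`. -/
def inst {X : Type} (φ : Fm (Option X)) (x : X) : Fm X := φ.map fun o => o.elim x id

end Fm

/-- Intuitionistic natural deduction with variable contexts: `Prov T X Γ φ` says that `φ` is
derivable from the axioms `T` (sentences) and the hypotheses `Γ`, all with free variables
from `X`. -/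
inductive Prov (T : Set (Fm Empty)) : (X : Type) → Set (Fm X) → Fm X → Prop
  | ax {X : Type} (Γ : Set (Fm X)) (σ : Fm Empty) (h : σ ∈ T) :
      Prov T X Γ (σ.map fun e => e.elim)
  | hyp {X : Type} (Γ : Set (Fm X)) (φ : Fm X) (h : φ ∈ Γ) : Prov T X Γ φ
  | topI {X : Type} (Γ : Set (Fm X)) : Prov T X Γ .top
  | andI {X : Type} (Γ : Set (Fm X)) (φ ψ : Fm X) (h₁ : Prov T X Γ φ) (h₂ : Prov T X Γ ψ) :
      Prov T X Γ (.and φ ψ)
  | andE₁ {X : Type} (Γ : Set (Fm X)) (φ ψ : Fm X) (h : Prov T X Γ (.and φ ψ)) : Prov T X Γ φ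
  | andE₂ {X : Type} (Γ : Set (Fm X)) (φ ψ : Fm X) (h : Prov T X Γ (.and φ ψ)) : Prov T X Γ ψ
  | disjI {X : Type} (Γ : Set (Fm X)) (ι : Type) (φ : ι → Fm X) (i : ι)
      (h : Prov T X Γ (φ i)) : Prov T X Γ (.disj ι φ)
  | disjE {X : Type} (Γ : Set (Fm X)) (ι : Type) (φ : ι → Fm X) (χ : Fm X)
      (h : Prov T X Γ (.disj ι φ)) (h' : ∀ i, Prov T X (Γ ∪ {φ i}) χ) : Prov T X Γ χ
  | impI {X : Type} (Γ : Set (Fm X)) (φ ψ : Fm X) (h : Prov T X (Γ ∪ {φ}) ψ) :
      Prov T X Γ (.imp φ ψ)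
  | impE {X : Type} (Γ : Set (Fm X)) (φ ψ : Fm X) (h : Prov T X Γ (.imp φ ψ))
      (h' : Prov T X Γ φ) : Prov T X Γ ψ
  | allI {X : Type} (Γ : Set (Fm X)) (φ : Fm (Option X))
      (h : Prov T (Option X) (Fm.map some '' Γ) φ) : Prov T X Γ (.all φ)
  | allE {X : Type} (Γ : Set (Fm X)) (φ : Fm (Option X)) (x : X)
      (h : Prov T X Γ (.all φ)) : Prov T X Γ (φ.inst x)
  | exI {X : Type} (Γ : Set (Fm X)) (φ : Fm (Option X)) (x : X)
      (h : Prov T X Γ (φ.inst x)) : Prov T X Γ (.ex φ)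
  | exE {X : Type} (Γ : Set (Fm X)) (φ : Fm (Option X)) (χ : Fm X)
      (h : Prov T X Γ (.ex φ))
      (h' : Prov T (Option X) (Fm.map some '' Γ ∪ {φ}) (χ.map some)) : Prov T X Γ χ
  | eqI {X : Type} (Γ : Set (Fm X)) (x : X) : Prov T X Γ (.eq x x)
  | eqE {X : Type} (Γ : Set (Fm X)) (φ : Fm (Option X)) (x y : X) (h : Prov T X Γ (.eq x y))
      (h' : Prov T X Γ (φ.inst x)) : Prov T X Γ (φ.inst y)

/-- `T ⊢ φ` for sentences. -/
def Proves (T : Set (Fm Empty)) (φ : Fm Empty) : Prop := Prov T Empty ∅ φ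

/-- Geometric formulas: built from equations by `⊤`, `∧`, small disjunctions (among them `⊥`)
and `∃`. -/
inductive IsGeom : {X : Type} → Fm X → Prop
  | eq {X : Type} (x y : X) : IsGeom (.eq x y)
  | top {X : Type} : IsGeom (X := X) .top
  | and {X : Type} (φ ψ : Fm X) (h₁ : IsGeom φ) (h₂ : IsGeom ψ) : IsGeom (.and φ ψ)
  | disj {X : Type} (ι : Type) (φ : ι → Fm X) (h : ∀ i, IsGeom (φ i)) : IsGeom (.disj ι φ)
  | ex {X : Type} (φ : Fm (Option X)) (h : IsGeom φ) : IsGeom (.ex φ)

/-- Geometric implications `∀ x̄ (φ → ψ)` with `φ`, `ψ` geometric. -/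
inductive IsGeomImp : {X : Type} → Fm X → Prop
  | imp {X : Type} (φ ψ : Fm X) (h₁ : IsGeom φ) (h₂ : IsGeom ψ) : IsGeomImp (.imp φ ψ)
  | all {X : Type} (φ : Fm (Option X)) (h : IsGeomImp φ) : IsGeomImp (.all φ)

/-- A sentence `α` is `T`-redundant if every geometric implication provable from `T + α` is
provable from `T`. -/
def Redundant (T : Set (Fm Empty)) (α : Fm Empty) : Prop :=
  ∀ φ : Fm Empty, IsGeomImp φ → Proves (T ∪ {α}) φ → Proves T φ

/-- Kripke-Joyal forcing in the presheaf topos `[FinSet, Set]` for the inclusion functor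
`FinSet → Set`: `Forces φ A v` says that the finite set `A` forces `φ` at the elements
`v : X → A` of the functor. The topos is the classifying topos of the empty theory over the empty
signature, and the inclusion functor is its generic model. -/
def Forces : {X : Type} → Fm X → (A : Type) → (X → A) → Prop
  | _, .eq x y, _, v => v x = v y
  | _, .top, _, _ => True
  | _, .and φ ψ, A, v => Forces φ A v ∧ Forces ψ A v
  | _, .disj _ φ, A, v => ∃ i, Forces (φ i) A v
  | _, .imp φ ψ, A, v => ∀ (B : Type) [Finite B] (f : A → B),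
      Forces φ B (f ∘ v) → Forces ψ B (f ∘ v)
  | _, .all φ, A, v => ∀ (B : Type) [Finite B] (f : A → B) (b : B),
      Forces φ B fun o => o.elim b (f ∘ v)
  | _, .ex φ, A, v => ∃ a : A, Forces φ A fun o => o.elim a v

/-- A sentence is true in the generic model if it is forced by every finite set. -/
def TrueInGeneric (φ : Fm Empty) : Prop :=
  ∀ (A : Type) [Finite A], Forces φ A fun e => e.elim

/-- The sentence `∀ x y, x = y ∨ ¬ x = y`. -/
def decEq : Fm Empty :=
  .all (.all ((Fm.eq (some none) none).or (Fm.eq (some none) none).neg))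

/-! ### Classical semantics -/

/-- Truth in a set. -/
def Tr (A : Type) : {X : Type} → Fm X → (X → A) → Prop
  | _, .eq x y, v => v x = v y
  | _, .top, _ => True
  | _, .and φ ψ, v => Tr A φ v ∧ Tr A ψ v
  | _, .disj _ φ, v => ∃ i, Tr A (φ i) v
  | _, .imp φ ψ, v => Tr A φ v → Tr A ψ v
  | _, .all φ, v => ∀ a : A, Tr A φ fun o => o.elim a v
  | _, .ex φ, v => ∃ a : A, Tr A φ fun o => o.elim a v

theorem tr_map (A : Type) : ∀ {X Y : Type} (φ : Fm X) (f : X → Y) (v : Y → A),
    Tr A (φ.map f) v ↔ Tr A φ (v ∘ f)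
  | _, _, .eq x y, f, v => Iff.rfl
  | _, _, .top, f, v => Iff.rfl
  | _, _, .and φ ψ, f, v => and_congr (tr_map A φ f v) (tr_map A ψ f v)
  | _, _, .disj ι φ, f, v => exists_congr fun i => tr_map A (φ i) f v
  | _, _, .imp φ ψ, f, v => imp_congr (tr_map A φ f v) (tr_map A ψ f v)
  | _, _, .all φ, f, v => by
      refine forall_congr' fun a => ?_
      rw [tr_map A φ (Option.map f)]
      apply iff_of_eq
      congr 1
      funext o
      cases o <;> rfl
  | _, _, .ex φ, f, v => by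
      refine exists_congr fun a => ?_
      rw [tr_map A φ (Option.map f)]
      apply iff_of_eq
      congr 1
      funext o
      cases o <;> rfl

theorem tr_inst (A : Type) {X : Type} (φ : Fm (Option X)) (x : X) (v : X → A) :
    Tr A (φ.inst x) v ↔ Tr A φ fun o => o.elim (v x) v := by
  rw [Fm.inst, tr_map]
  apply iff_of_eq
  congr 1
  funext o
  cases o <;> rfl

theorem soundness (T : Set (Fm Empty)) {X : Type} (Γ : Set (Fm X)) (φ : Fm X)
    (h : Prov T X Γ φ) (A : Type) (hT : ∀ σ ∈ T, Tr A σ fun e => e.elim) :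
    ∀ v : X → A, (∀ γ ∈ Γ, Tr A γ v) → Tr A φ v := by
  induction h with
  | ax Γ σ h =>
    intro v _
    rw [tr_map]
    have h0 : (v ∘ fun e : Empty => e.elim) = fun e => e.elim := by
      funext e
      exact e.elim
    rw [h0]
    exact hT σ h
  | hyp Γ φ h => exact fun v hv => hv φ h
  | topI Γ => exact fun _ _ => trivial
  | andI Γ φ ψ _ _ ih₁ ih₂ => exact fun v hv => ⟨ih₁ v hv, ih₂ v hv⟩
  | andE₁ Γ φ ψ _ ih => exact fun v hv => (ih v hv).1
  | andE₂ Γ φ ψ _ ih => exact fun v hv => (ih v hv).2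
  | disjI Γ ι φ i _ ih => exact fun v hv => ⟨i, ih v hv⟩
  | disjE Γ ι φ χ _ _ ih ih' =>
    intro v hv
    obtain ⟨i, hi⟩ := ih v hv
    refine ih' i v ?_
    rintro γ (hγ | hγ)
    · exact hv γ hγ
    · rw [Set.mem_singleton_iff] at hγ
      rw [hγ]
      exact hi
  | impI Γ φ ψ _ ih =>
    intro v hv hφ
    refine ih v ?_
    rintro γ (hγ | hγ)
    · exact hv γ hγ
    · rw [Set.mem_singleton_iff] at hγ
      rw [hγ]
      exact hφ
  | impE Γ φ ψ _ _ ih ih' => exact fun v hv => ih v hv (ih' v hv)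
  | allI Γ φ _ ih =>
    intro v hv a
    refine ih _ ?_
    rintro _ ⟨γ, hγ, rfl⟩
    rw [tr_map]
    exact hv γ hγ
  | allE Γ φ x _ ih =>
    intro v hv
    rw [tr_inst]
    exact ih v hv (v x)
  | exI Γ φ x _ ih =>
    intro v hv
    have := ih v hv
    rw [tr_inst] at this
    exact ⟨v x, this⟩
  | exE Γ φ χ _ _ ih ih' =>
    intro v hv
    obtain ⟨a, ha⟩ := ih v hv
    have := ih' (fun o => o.elim a v) (by
      rintro γ (⟨γ, hγ, rfl⟩ | hγ)
      · rw [tr_map]
        exact hv γ hγ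
      · rw [Set.mem_singleton_iff] at hγ
        rw [hγ]
        exact ha)
    rw [tr_map] at this
    exact this
  | eqI Γ x => exact fun _ _ => rfl
  | eqE Γ φ x y _ _ ih ih' =>
    intro v hv
    have h1 := ih v hv
    have h2 := ih' v hv
    rw [tr_inst] at h2 ⊢
    have h1' : v x = v y := h1
    rw [← h1']
    exact h2

/-! ### Renaming -/

theorem map_map : ∀ {X Y Z : Type} (φ : Fm X) (f : X → Y) (g : Y → Z),
    (φ.map f).map g = φ.map (g ∘ f)
  | _, _, _, .eq x y, f, g => rfl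
  | _, _, _, .top, f, g => rfl
  | _, _, _, .and φ ψ, f, g => by simp only [Fm.map, map_map]
  | _, _, _, .disj ι φ, f, g => by simp only [Fm.map, map_map]
  | _, _, _, .imp φ ψ, f, g => by simp only [Fm.map, map_map]
  | _, _, _, .all φ, f, g => by simp only [Fm.map, map_map, Option.map_comp_map]
  | _, _, _, .ex φ, f, g => by simp only [Fm.map, map_map, Option.map_comp_map]

theorem map_id : ∀ {X : Type} (φ : Fm X), φ.map id = φ
  | _, .eq x y => rfl
  | _, .top => rfl
  | _, .and φ ψ => by simp only [Fm.map, map_id]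
  | _, .disj ι φ => by simp only [Fm.map, map_id]
  | _, .imp φ ψ => by simp only [Fm.map, map_id]
  | _, .all φ => by simp only [Fm.map, Option.map_id, map_id]
  | _, .ex φ => by simp only [Fm.map, Option.map_id, map_id]

theorem map_some_map {X Y : Type} (φ : Fm X) (g : X → Y) :
    (φ.map some).map (Option.map g) = (φ.map g).map some := by
  rw [map_map, map_map]
  rfl

theorem map_inst {X Y : Type} (φ : Fm (Option X)) (x : X) (g : X → Y) :
    (φ.inst x).map g = (φ.map (Option.map g)).inst (g x) := by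
  rw [Fm.inst, Fm.inst, map_map, map_map]
  congr 1
  funext o
  cases o <;> rfl

theorem rename {T : Set (Fm Empty)} {X : Type} {Γ : Set (Fm X)} {φ : Fm X}
    (h : Prov T X Γ φ) : ∀ {Y : Type} (g : X → Y) (Δ : Set (Fm Y)),
      (∀ γ ∈ Γ, γ.map g ∈ Δ) → Prov T Y Δ (φ.map g) := by
  induction h with
  | ax Γ σ h =>
    intro Y g Δ _
    have := Prov.ax (T := T) Δ σ h
    rw [map_map]
    have he : (g ∘ fun e : Empty => e.elim) = fun e => e.elim := by
      funext e
      exact e.elim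
    rw [he]
    exact this
  | hyp Γ φ h => exact fun g Δ hΔ => Prov.hyp _ _ (hΔ _ h)
  | topI Γ => exact fun g Δ hΔ => Prov.topI _
  | andI Γ φ ψ _ _ ih₁ ih₂ => exact fun g Δ hΔ => Prov.andI _ _ _ (ih₁ g Δ hΔ) (ih₂ g Δ hΔ)
  | andE₁ Γ φ ψ _ ih => exact fun g Δ hΔ => Prov.andE₁ _ _ _ (ih g Δ hΔ)
  | andE₂ Γ φ ψ _ ih => exact fun g Δ hΔ => Prov.andE₂ _ _ _ (ih g Δ hΔ)
  | disjI Γ ι φ i _ ih => exact fun g Δ hΔ => Prov.disjI _ ι (fun i => (φ i).map g) i (ih g Δ hΔ)
  | disjE Γ ι φ χ _ _ ih ih' =>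
    intro Y g Δ hΔ
    refine Prov.disjE _ ι (fun i => (φ i).map g) _ (ih g Δ hΔ) fun i => ih' i g _ ?_
    rintro γ (hγ | hγ)
    · exact Or.inl (hΔ γ hγ)
    · rw [Set.mem_singleton_iff] at hγ
      rw [hγ]
      exact Or.inr rfl
  | impI Γ φ ψ _ ih =>
    intro Y g Δ hΔ
    refine Prov.impI _ _ _ (ih g _ ?_)
    rintro γ (hγ | hγ)
    · exact Or.inl (hΔ γ hγ)
    · rw [Set.mem_singleton_iff] at hγ
      rw [hγ]
      exact Or.inr rfl
  | impE Γ φ ψ _ _ ih ih' =>
    exact fun g Δ hΔ => Prov.impE _ _ _ (ih g Δ hΔ) (ih' g Δ hΔ)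
  | allI Γ φ _ ih =>
    intro Y g Δ hΔ
    refine Prov.allI _ _ (ih (Option.map g) _ ?_)
    rintro _ ⟨γ, hγ, rfl⟩
    rw [map_some_map]
    exact ⟨_, hΔ γ hγ, rfl⟩
  | allE Γ φ x _ ih =>
    intro Y g Δ hΔ
    rw [map_inst]
    exact Prov.allE _ _ _ (ih g Δ hΔ)
  | exI Γ φ x _ ih =>
    intro Y g Δ hΔ
    refine Prov.exI _ _ (g x) ?_
    rw [← map_inst]
    exact ih g Δ hΔ
  | exE Γ φ χ _ _ ih ih' =>
    intro Y g Δ hΔ
    refine Prov.exE _ (φ.map (Option.map g)) _ (ih g Δ hΔ) ?_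
    rw [← map_some_map]
    refine ih' (Option.map g) _ ?_
    rintro γ (⟨γ, hγ, rfl⟩ | hγ)
    · rw [map_some_map]
      exact Or.inl ⟨_, hΔ γ hγ, rfl⟩
    · rw [Set.mem_singleton_iff] at hγ
      rw [hγ]
      exact Or.inr rfl
  | eqI Γ x => exact fun g Δ hΔ => Prov.eqI _ _
  | eqE Γ φ x y _ _ ih ih' =>
    intro Y g Δ hΔ
    rw [map_inst]
    refine Prov.eqE _ _ (g x) (g y) (ih g Δ hΔ) ?_
    rw [← map_inst]
    exact ih' g Δ hΔ

theorem weaken {T : Set (Fm Empty)} {X : Type} {Γ Δ : Set (Fm X)} {φ : Fm X}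
    (h : Prov T X Γ φ) (hΔ : Γ ⊆ Δ) : Prov T X Δ φ := by
  have := rename h id Δ (fun γ hγ => by rw [map_id]; exact hΔ hγ)
  rwa [map_id] at this

/-! ### Canonical structures and completeness -/

section Canonical

variable (T : Set (Fm Empty))

/-- Provable equality of variables. -/
def canSetoid {X : Type} (Γ : Set (Fm X)) : Setoid X where
  r x y := Prov T X Γ (.eq x y)
  iseqv :=
    { refl := fun x => Prov.eqI _ x
      symm := fun {x y} h => Prov.eqE Γ (.eq none (some x)) x y h (Prov.eqI _ x)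
      trans := fun {x y z} h h' => Prov.eqE Γ (.eq (some x) none) y z h' h }

/-- The canonical structure. -/
def Can {X : Type} (Γ : Set (Fm X)) : Type := Quotient (canSetoid T Γ)

/-- The canonical map. -/
def cmk {X : Type} (Γ : Set (Fm X)) (x : X) : Can T Γ := Quotient.mk (canSetoid T Γ) x

theorem cmk_eq {X : Type} (Γ : Set (Fm X)) (x y : X) :
    cmk T Γ x = cmk T Γ y ↔ Prov T X Γ (.eq x y) :=
  ⟨fun h => Quotient.exact h, fun h => Quotient.sound h⟩

theorem right {Y : Type} (ψ : Fm Y) (hψ : IsGeom ψ) : ∀ {X : Type} (Γ : Set (Fm X)) (f : Y → X),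
    Tr (Can T Γ) ψ (cmk T Γ ∘ f) → Prov T X Γ (ψ.map f) := by
  induction hψ with
  | eq x y => exact fun Γ f h => (cmk_eq T Γ _ _).1 h
  | top => exact fun Γ f _ => Prov.topI _
  | and φ ψ _ _ ih₁ ih₂ => exact fun Γ f h => Prov.andI _ _ _ (ih₁ Γ f h.1) (ih₂ Γ f h.2)
  | disj ι φ _ ih =>
    intro X Γ f h
    obtain ⟨i, hi⟩ := h
    exact Prov.disjI _ ι (fun i => (φ i).map f) i (ih i Γ f hi)
  | ex φ _ ih =>
    intro X Γ f h
    obtain ⟨a, ha⟩ := h
    obtain ⟨x₀, rfl⟩ := Quotient.exists_rep a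
    refine Prov.exI _ _ x₀ ?_
    have h1 : (φ.map (Option.map f)).inst x₀ = φ.map fun o => o.elim x₀ f := by
      rw [Fm.inst, map_map]
      congr 1
      funext o
      cases o <;> rfl
    rw [h1]
    apply ih
    have h2 : (cmk T Γ ∘ fun o : Option _ => o.elim x₀ f) =
        fun o => o.elim (cmk T Γ x₀) (cmk T Γ ∘ f) := by
      funext o
      cases o <;> rfl
    rw [h2]
    exact ha

theorem geom_mono {Y : Type} (φ : Fm Y) (hφ : IsGeom φ) : ∀ (A B : Type) (h : A → B) (v : Y → A),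
    Tr A φ v → Tr B φ (h ∘ v) := by
  induction hφ with
  | eq x y => exact fun A B h v hv => congrArg h hv
  | top => exact fun A B h v _ => trivial
  | and φ ψ _ _ ih₁ ih₂ => exact fun A B h v hv => ⟨ih₁ A B h v hv.1, ih₂ A B h v hv.2⟩
  | disj ι φ _ ih =>
    intro A B h v hv
    obtain ⟨i, hi⟩ := hv
    exact ⟨i, ih i A B h v hi⟩
  | ex φ _ ih =>
    intro A B h v hv
    obtain ⟨a, ha⟩ := hv
    refine ⟨h a, ?_⟩
    have := ih A B h _ ha
    have h2 : (h ∘ fun o : Option _ => o.elim a v) = fun o => o.elim (h a) (h ∘ v) := by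
      funext o
      cases o <;> rfl
    rw [h2] at this
    exact this

/-- The map of canonical structures induced by a renaming. -/
def canMap {X X' : Type} (Γ : Set (Fm X)) (Γ' : Set (Fm X')) (g : X → X')
    (hg : ∀ γ ∈ Γ, γ.map g ∈ Γ') : Can T Γ → Can T Γ' :=
  Quotient.map' g fun _ _ h => rename h g Γ' hg

theorem left {Y : Type} (φ : Fm Y) (hφ : IsGeom φ) : ∀ {X : Type} (f : Y → X) (Γ : Set (Fm X))
    (χ : Fm X), (∀ (X' : Type) (g : X → X') (Γ' : Set (Fm X')), (∀ γ ∈ Γ, γ.map g ∈ Γ') →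
      Tr (Can T Γ') φ (cmk T Γ' ∘ g ∘ f) → Prov T X' Γ' (χ.map g)) →
    Prov T X (Γ ∪ {φ.map f}) χ := by
  induction hφ with
  | eq a b =>
    intro X f Γ χ h
    have := h X id (Γ ∪ {Fm.eq (f a) (f b)}) (fun γ hγ => by rw [map_id]; exact Or.inl hγ)
      ((cmk_eq T _ _ _).2 (Prov.hyp _ _ (Or.inr rfl)))
    rwa [map_id] at this
  | top =>
    intro X f Γ χ h
    have := h X id (Γ ∪ {Fm.top}) (fun γ hγ => by rw [map_id]; exact Or.inl hγ) trivial
    rwa [map_id] at this
  | and φ ψ _ hψ ih₁ ih₂ =>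
    rename_i hφ
    intro X f Γ χ h
    have h1 : Prov T X (Γ ∪ {φ.map f}) (.imp (ψ.map f) χ) := by
      apply ih₁
      intro X' g Γ' hg ht
      refine Prov.impI _ _ _ ?_
      rw [map_map]
      apply ih₂
      intro X'' g' Γ'' hg' ht'
      rw [map_map]
      refine h X'' (g' ∘ g) Γ'' (fun γ hγ => ?_) ⟨?_, ht'⟩
      · rw [← map_map]
        exact hg' _ (hg γ hγ)
      · exact geom_mono φ hφ (Can T Γ') (Can T Γ'') (canMap T Γ' Γ'' g' hg') _ ht
    have h2 : Prov T X (Γ ∪ {Fm.and (φ.map f) (ψ.map f)}) (.and (φ.map f) (ψ.map f)) :=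
      Prov.hyp _ _ (Or.inr rfl)
    have h3 : Prov T X (Γ ∪ {Fm.and (φ.map f) (ψ.map f)})
        (.imp (φ.map f) (.imp (ψ.map f) χ)) := by
      refine Prov.impI _ _ _ (weaken h1 ?_)
      rintro γ (hγ | hγ)
      · exact Or.inl (Or.inl hγ)
      · exact Or.inr hγ
    exact Prov.impE _ _ _ (Prov.impE _ _ _ h3 (Prov.andE₁ _ _ _ h2)) (Prov.andE₂ _ _ _ h2)
  | disj ι φ _ ih =>
    intro X f Γ χ h
    refine Prov.disjE _ ι (fun i => (φ i).map f) _ (Prov.hyp _ _ (Or.inr rfl)) fun i => ?_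
    have h1 : Prov T X (Γ ∪ {(φ i).map f}) χ :=
      ih i f Γ χ fun X' g Γ' hg ht => h X' g Γ' hg ⟨i, ht⟩
    refine weaken h1 ?_
    rintro γ (hγ | hγ)
    · exact Or.inl (Or.inl hγ)
    · exact Or.inr hγ
  | ex φ _ ih =>
    intro X f Γ χ h
    refine Prov.exE _ (φ.map (Option.map f)) _ (Prov.hyp _ _ (Or.inr rfl)) ?_
    have h1 : Prov T (Option X) (Fm.map some '' Γ ∪ {φ.map (Option.map f)}) (χ.map some) := by
      apply ih
      intro X' g Γ' hg ht
      rw [map_map]
      refine h X' (g ∘ some) Γ' (fun γ hγ => ?_) ⟨cmk T Γ' (g none), ?_⟩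
      · rw [← map_map]
        exact hg _ ⟨γ, hγ, rfl⟩
      · have h2 : (fun o : Option _ => o.elim (cmk T Γ' (g none)) (cmk T Γ' ∘ (g ∘ some) ∘ f)) =
            cmk T Γ' ∘ g ∘ Option.map f := by
          funext o
          cases o <;> rfl
        rw [h2]
        exact ht
    refine weaken h1 ?_
    rintro γ (⟨γ, hγ, rfl⟩ | hγ)
    · exact Or.inl ⟨γ, Or.inl hγ, rfl⟩
    · exact Or.inr hγ

theorem complete {X : Type} (χ : Fm X) (h : IsGeomImp χ)
    (hv : ∀ (A : Type) (v : X → A), Tr A χ v) : Prov T X ∅ χ := by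
  induction h with
  | imp φ ψ h₁ h₂ =>
    refine Prov.impI _ _ _ ?_
    have := left T φ h₁ id ∅ ψ fun X' g Γ' _ ht => right T ψ h₂ Γ' g (hv _ _ ht)
    rwa [map_id] at this
  | all φ _ ih =>
    refine Prov.allI _ _ ?_
    rw [Set.image_empty]
    refine ih fun A v => ?_
    have := hv A (v ∘ some) (v none)
    have h2 : (fun o : Option _ => o.elim (v none) (v ∘ some)) = v := by
      funext o
      cases o <;> rfl
    rw [h2] at this
    exact this

end Canonical

/-- **A redundant sentence of an algebraic theory which is false in the generic model.** Over the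
empty signature and for the empty theory `T` (an algebraic coherent theory), the sentence
`∀ x y, x = y ∨ ¬ x = y` is `T`-redundant, but it is not true in the generic model. -/
theorem result : Redundant ∅ decEq ∧ ¬ TrueInGeneric decEq := by
  constructor
  · intro φ hφ hp
    apply complete ∅ φ hφ
    intro A v
    refine soundness (∅ ∪ {decEq}) ∅ φ hp A ?_ v (fun γ hγ => absurd hγ (Set.notMem_empty γ))
    intro σ hσ
    rw [Set.empty_union, Set.mem_singleton_iff] at hσ
    rw [hσ]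
    intro a b
    by_cases hab : a = b
    · exact ⟨true, hab⟩
    · exact ⟨false, fun h => absurd h hab⟩
  · intro h
    obtain ⟨i, hi⟩ := h Bool Bool id true Bool id false
    cases i
    · obtain ⟨e, _⟩ := hi Unit (fun _ => ()) rfl
      exact e.elim
    · exact absurd hi (by intro h'; exact Bool.noConfusion h')

end Pool.Agent.Results.MP_c38b8d_lc.DecEqRedundant
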